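import Pool.Agent.Helper26.KD.St

/-!
# Project KD, module Dir: small exponents
-/

set_option autoImplicit false

open scoped BigOperators ENNReal Topology
open Pool.LE Pool.NL Filter

namespace Pool.KD

namespace DirM

/-- Lower bound of `w - F * w`. -/
theorem low (hW : StW) (hFs : StFs) (hTl : StTl) {d : ℕ} {s K A C₀ : ℝ} (hd : 21 ≤ d) (hs : 0 < s)
    (hs1 : s ≤ 1) (hK : 1 ≤ K) (hC₀ : 1 ≤ C₀) {F g G : Zd d → ℝ} (h : KS d F g G K A)
    {m : ℝ} (hm : 1 ≤ m) (hm0 : 2 * (C₀ + 8) * K / (A * (s * (d - s - 2))) ≤ m)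
    (hE : ∀ x : Zd d,
      Summable (fun y => F y * ww s m (x - y)) ∧
      Summable (fun y => if m + nn x < 2 * nn y then |F y| * ww s m (x - y) else 0) ∧
      |ww s m x - ∑' y, F y * ww s m (x - y) - (1 - ∑' y, F y) * ww s m x -
        (∑' y, LE.sq y * F y) / (2 * d) / m ^ 2 * fs s m x| ≤ C₀ * K / m ^ 3 * ww (s + 3) m x +
          ∑' y, if m + nn x < 2 * nn y then |F y| * ww s m (x - y) else 0) (x : Zd d) :
    A * (s * (d - s - 2)) / (2 * m ^ 2) * ww (s + 2) m x ≤
      ww s m x - ∑' z, F z * ww s m (x - z) := by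
  obtain ⟨-, -, hW3, hW4, -⟩ := hW d m hm
  have hdR : (21 : ℝ) ≤ d := by exact_mod_cast hd
  have hm' : 0 < m := by linarith
  have hA := h.hA
  have hc : 0 < A * (s * (d - s - 2)) := mul_pos hA (mul_pos hs (by linarith))
  obtain ⟨-, hE2, hE3⟩ := hE x
  obtain ⟨hF1, -⟩ := hFs d s m x hm hs (by linarith)
  obtain ⟨hT1, hT2⟩ := hTl d F K m h.F3 hm x
  have hw0 := hW3 s x hs.le
  have hw2 := hW3 (s + 2) x (by linarith)
  have h32 : ww (s + 3) m x ≤ ww (s + 2) m x := hW4 _ _ x (by linarith)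
  have h33 : ww 3 m x ≤ ww (s + 2) m x := hW4 _ _ x (by linarith)
  -- the far part
  have hfar : (∑' y, if m + nn x < 2 * nn y then |F y| * ww s m (x - y) else 0) ≤
      8 * K / m ^ 3 * ww (s + 2) m x := by
    refine le_trans (hE2.tsum_le_tsum (fun y => ?_) hT1) (hT2.trans ?_)
    · by_cases hy : m + nn x < 2 * nn y
      · rw [if_pos hy, if_pos hy]
        have := (hW3 s (x - y) hs.le).2.1
        exact mul_le_of_le_one_right (abs_nonneg _) this
      · rw [if_neg hy, if_neg hy]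
    · exact mul_le_mul_of_nonneg_left h33 (by positivity)
  have hmain : A / m ^ 2 * (s * (d - s - 2) * ww (s + 2) m x) ≤
      (∑' y, LE.sq y * F y) / (2 * d) / m ^ 2 * fs s m x := by
    have h1 : 0 ≤ s * (d - s - 2) * ww (s + 2) m x :=
      mul_nonneg (mul_nonneg hs.le (by linarith)) hw2.1.le
    have h2 : A / m ^ 2 ≤ (∑' y, LE.sq y * F y) / (2 * d) / m ^ 2 :=
      div_le_div_of_nonneg_right h.F2 (by positivity)
    have h3 : 0 ≤ A / m ^ 2 := by positivity
    exact mul_le_mul h2 hF1 h1 (h3.trans h2)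
  have hone : 0 ≤ (1 - ∑' y, F y) * ww s m x :=
    mul_nonneg (by linarith [h.F1]) hw0.1.le
  have h4 : C₀ * K / m ^ 3 * ww (s + 3) m x ≤ C₀ * K / m ^ 3 * ww (s + 2) m x :=
    mul_le_mul_of_nonneg_left h32 (by positivity)
  have h5 := (abs_le.mp hE3).1
  have h6 : (C₀ + 8) * K / m ^ 3 * ww (s + 2) m x ≤
      A * (s * (d - s - 2)) / (2 * m ^ 2) * ww (s + 2) m x := by
    refine mul_le_mul_of_nonneg_right ?_ hw2.1.le
    rw [div_le_iff₀ hc] at hm0
    rw [div_le_div_iff₀ (by positivity) (by positivity)]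
    have : (0 : ℝ) < m ^ 2 := by positivity
    nlinarith
  have h7 : C₀ * K / m ^ 3 * ww (s + 2) m x + 8 * K / m ^ 3 * ww (s + 2) m x =
      (C₀ + 8) * K / m ^ 3 * ww (s + 2) m x := by ring
  have h8 : A / m ^ 2 * (s * (d - s - 2) * ww (s + 2) m x) =
      A * (s * (d - s - 2)) / (2 * m ^ 2) * ww (s + 2) m x +
        A * (s * (d - s - 2)) / (2 * m ^ 2) * ww (s + 2) m x := by
    field_simp
    ring
  linarith

end DirM

open DirM in
theorem hDir (hW : StW) (hExp : StExp) (hFs : StFs) (hTl : StTl) (hGrn : StGrn) : StDir := by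
  intro d s K A hd hs hs1 hK hA
  obtain ⟨C₀, hC₀, hE⟩ := hExp d s (by omega) hs
  have hdR : (21 : ℝ) ≤ d := by exact_mod_cast hd
  have hc : 0 < A * (s * (d - s - 2)) := mul_pos hA (mul_pos hs (by linarith))
  refine ⟨max 1 (4 * K / (A * (s * (d - s - 2)))),
    max 1 (2 * (C₀ + 8) * K / (A * (s * (d - s - 2)))), le_max_left _ _, le_max_left _ _,
    fun F g G h m x hm => ?_⟩
  have hm1 : 1 ≤ m := (le_max_left _ _).trans hm
  have hm' : 0 < m := by linarith
  have hlow := low hW hFs hTl hd hs hs1 hK hC₀ h hm1 ((le_max_right _ _).trans hm)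
    (hE F K m h.Fsym h.F3 hm1)
  obtain ⟨-, -, hW3, hW4, -, hW6, -⟩ := hW d m hm1
  obtain ⟨hG1, hG2, hG3, hG4⟩ := hGrn d F g G K A h (ww s m)
    ⟨1, fun y => by
      have := hW3 s y hs.le
      rw [abs_of_pos this.1]
      exact this.2.1⟩ x
  have hS : Summable (fun y => G (x - y) * ww (s + 2) m y) := by
    refine Summable.of_nonneg_of_le (fun y => mul_nonneg (h.G0 _) (hW3 _ y (by linarith)).1.le)
      (fun y => mul_le_mul_of_nonneg_left (hW4 s (s + 2) y (by linarith)) (h.G0 _)) hG1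
  have h1 : A * (s * (d - s - 2)) / (2 * m ^ 2) * ∑' y, G (x - y) * ww (s + 2) m y ≤
      ∑' y, g y * ww s m (x - y) := by
    rw [← hG4, ← tsum_mul_left]
    refine (hS.mul_left _).tsum_le_tsum (fun y => ?_) ?_
    · have h2 := mul_le_mul_of_nonneg_left (hlow y) (h.G0 (x - y))
      calc A * (s * (d - s - 2)) / (2 * m ^ 2) * (G (x - y) * ww (s + 2) m y)
          = G (x - y) * (A * (s * (d - s - 2)) / (2 * m ^ 2) * ww (s + 2) m y) := by ring
        _ ≤ _ := h2
    · refine (hG1.sub hG3).congr fun y => ?_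
      ring
  have h2 : ∑' y, g y * ww s m (x - y) ≤ 2 * K * ww s m x := by
    have h3 : ∀ y, g y * ww s m (x - y) ≤ (1 + nn y) ^ 3 * |g y| * (2 * ww s m x) := by
      intro y
      have hw := hW3 s (x - y) hs.le
      have hw' := hW3 s x hs.le
      have hn : 0 ≤ nn y := Real.sqrt_nonneg _
      have h4 := hW6 s x y hs.le
      have h5 : (2 : ℝ) ^ s ≤ 2 := by
        calc (2 : ℝ) ^ s ≤ 2 ^ (1 : ℝ) := Real.rpow_le_rpow_of_exponent_le (by norm_num) hs1
          _ = 2 := Real.rpow_one 2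
      have h6 : (1 + nn y / m) ^ s ≤ (1 + nn y) ^ 3 := by
        have h7 : nn y / m ≤ nn y := div_le_self hn hm1
        have h8 : (1 : ℝ) ≤ 1 + nn y / m := by
          have : 0 ≤ nn y / m := by positivity
          linarith
        calc (1 + nn y / m) ^ s ≤ (1 + nn y / m) ^ (1 : ℝ) :=
              Real.rpow_le_rpow_of_exponent_le h8 hs1
          _ = 1 + nn y / m := Real.rpow_one _
          _ ≤ 1 + nn y := by linarith
          _ ≤ (1 + nn y) ^ 3 := le_self_pow₀ (by linarith) (by norm_num)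
      have h7 : (0 : ℝ) ≤ (1 + nn y / m) ^ s := by positivity
      have h8 : (2 : ℝ) ^ s * (1 + nn y / m) ^ s ≤ 2 * (1 + nn y) ^ 3 :=
        mul_le_mul h5 h6 h7 (by norm_num)
      calc g y * ww s m (x - y) ≤ |g y| * ww s m (x - y) :=
            mul_le_mul_of_nonneg_right (le_abs_self _) hw.1.le
        _ ≤ |g y| * (2 * (1 + nn y) ^ 3 * ww s m x) := by
            refine mul_le_mul_of_nonneg_left (h4.trans ?_) (abs_nonneg _)
            exact mul_le_mul_of_nonneg_right h8 hw'.1.le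
        _ = (1 + nn y) ^ 3 * |g y| * (2 * ww s m x) := by ring
    calc ∑' y, g y * ww s m (x - y) ≤ ∑' y, (1 + nn y) ^ 3 * |g y| * (2 * ww s m x) :=
          hG2.tsum_le_tsum h3 (h.g3.summ.mul_right _)
      _ = (∑' y, (1 + nn y) ^ 3 * |g y|) * (2 * ww s m x) := tsum_mul_right
      _ ≤ K * (2 * ww s m x) := by
          refine mul_le_mul_of_nonneg_right h.g3.le ?_
          have := (hW3 s x hs.le).1
          positivity
      _ = 2 * K * ww s m x := by ring
  have h3 := h1.trans h2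
  have hw := (hW3 s x hs.le).1
  calc ∑' y, G (x - y) * ww (s + 2) m y
      ≤ 4 * K / (A * (s * (d - s - 2))) * m ^ 2 * ww s m x := by
        rw [div_mul_eq_mul_div, div_le_iff₀ (by positivity)] at h3
        rw [div_mul_eq_mul_div, div_mul_eq_mul_div, le_div_iff₀ hc]
        nlinarith
    _ ≤ max 1 (4 * K / (A * (s * (d - s - 2)))) * m ^ 2 * ww s m x := by
        refine mul_le_mul_of_nonneg_right (mul_le_mul_of_nonneg_right (le_max_right _ _) ?_) hw.le
        positivity

end Pool.KD
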